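import Mathlib
import Pool.Agent.H511.Ex.Tw6

/-!
# Almost all Dirichlet twists satisfy Artin's conjecture and the Riemann hypothesis off the line

`L/F` is an arbitrary Galois extension of number fields with group `G = L ≃ₐ[F] L`, and
`Pool.Agent.H541R3.ART.Irr G` is the set of the irreducible complex characters of `G`. We consider the
twists `L(s, χ ⊗ ξ)` of ALL Artin L-functions of `L/F` by the primitive Dirichlet characters `ξ`
(composed with the norm of `F`), which are again Artin L-functions of irreducible characters. We show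
that for all but very few `ξ` they all are holomorphic and have no zeros away from the critical line.
Nothing is assumed.

There are about `Q ^ 2` primitive characters `ξ` of conductor at most `Q`. Suppose that `G` has an
abelian subgroup of index `n` and put `m = n [F : ℚ]`. For `δ > max (1/2 - 2/m) 0` there is a `κ > 0`
such that for all but `O ((1 + T) ^ (2 m + 1) Q ^ (2 - κ))` of the `ξ` of conductor at most `Q`, no
`L(s, χ ⊗ ξ)` has a zero or pole with `0 < Re s`, `|Im s| ≤ T`, `|Re s - 1/2| ≥ δ`; and if `m ≤ 4`, for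
all but `O (Q ^ 2 / (log Q) ^ k)` of the `ξ` all zeros and poles of all `L(s, χ ⊗ ξ)` with `Re s > 0`
satisfy `|Re s - 1/2| ≤ K (log log Q + log |Im s|) / log Q` (the square root of this bound for
`m = 4`). These are results on Artin's conjecture for the groups `G` for which it is unknown, for
example the icosahedral representations of the group of `ℚ` (`n = 12`) and the extensions of `ℚ` with
group `A₅` (there `n = 6` suffices).

In place of an abelian subgroup of index `n` the theorem uses the weakest hypothesis with which the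
proof works, `Detects G n`: a class function which is orthogonal to the linear characters of all
subgroups of index at most `n`, and has natural multiplicities for the linear characters of the other
subgroups (as the function `∑ ord L(s, χ ⊗ ξ) χ` of Heilbronn does), is zero.

Proof. For a linear character `λ` of a subgroup `H` of `G`, the twists of the L-function of the induced
character are, by Artin's reciprocity law, a family of twists of a Hecke L-function of degree
`[G : H] [F : ℚ]`, to which the density theorems of `Pool.Agent.R399.TW`, `Pool.Agent.N784.TD` apply. If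
those with `[G : H] ≤ n` have no zero at `s`, the function of Heilbronn at `s` is zero, so all
`L(s, χ ⊗ ξ)` have order `0` at `s`. The twisted L-functions, their continuation and the families are in
`Pool.Agent.H511.Ex`, over the library `Pool.Agent.Q92.AR` (reciprocity law, Brauer's theorem).
-/

set_option autoImplicit false

open NumberField IsDedekindDomain Pool.Agent.H541R3.ART Pool.Agent.Q92.AR

namespace Pool.Agent.Results.MP_d2121a_nt.AlmostAllTwists

/-! ### The twisted L-functions -/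

section
variable {F L : Type} [Field F] [NumberField F] [Field L] [NumberField L] [Algebra F L]

open scoped Classical in
/-- The Artin L-function `L(s, χ ⊗ ξ)` for `Re s > 1`:
`exp ∑ χ(Frob_v ^ n) ξ(N v) ^ n / (n (N v) ^ (n s))` over `n ≥ 1` and the primes `v` of `F` which are
unramified in `L`. (The Euler factors at the finitely many primes which ramify in `L` are left out; if
the conductor of `ξ` is prime to them, these factors are holomorphic without zeros for `Re s > 0`.) -/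
noncomputable def twistL (χ : (L ≃ₐ[F] L) → ℂ) {q : ℕ} (ξ : DirichletCharacter ℂ q) (s : ℂ) : ℂ :=
  Complex.exp (∑' x : HeightOneSpectrum (𝓞 F) × ℕ,
    if Unramified L x.1 then χ (frob L x.1 ^ (x.2 + 1)) *
      ξ ((Ideal.absNorm x.1.asIdeal : ℕ) : ZMod q) ^ (x.2 + 1) /
      (((x.2 + 1 : ℕ) : ℂ) * (Ideal.absNorm x.1.asIdeal : ℂ) ^ (((x.2 + 1 : ℕ) : ℂ) * s)) else 0)

/-- `Λ` is a meromorphic continuation of the twisted L-function `L(s, χ ⊗ ξ)` to the plane. -/
def IsContinuation (χ : (L ≃ₐ[F] L) → ℂ) {q : ℕ} (ξ : DirichletCharacter ℂ q) (Λ : ℂ → ℂ) : Prop :=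
  MeromorphicOn Λ Set.univ ∧ ∀ s : ℂ, 1 < s.re → Λ s = twistL χ ξ s

/-- For all irreducible characters `χ` the function `Λ χ` is holomorphic and not zero at all points `s`
of `U` with `Re s > 0`. -/
def Regular (Λ : ((L ≃ₐ[F] L) → ℂ) → ℂ → ℂ) (U : Set ℂ) : Prop :=
  ∀ χ ∈ Irr (L ≃ₐ[F] L), ∀ s ∈ U, 0 < s.re → AnalyticAt ℂ (Λ χ) s ∧ Λ χ s ≠ 0

end

/-- The points `s` with `|Im s| ≤ T` at distance at least `δ` from the critical line. -/
def far (δ T : ℝ) : Set ℂ := {s | |s.im| ≤ T ∧ δ ≤ |s.re - 1 / 2|}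

/-- The points `s` with `K (log (1 + log Q) + log (2 + |Im s|)) < |Re s - 1/2| ^ a log Q`. -/
def off (a : ℕ) (K : ℝ) (Q : ℕ) : Set ℂ :=
  {s | K * (Real.log (1 + Real.log Q) + Real.log (2 + |s.im|)) < |s.re - 1 / 2| ^ a * Real.log Q}

/-! ### Counting characters -/

/-- the number of the primitive Dirichlet characters `ξ` of conductor `q`, `2 ≤ q ≤ Q`, `q` prime to
`N`, with the property `S q ξ` -/
noncomputable def count (N Q : ℕ) (S : (q : ℕ) → DirichletCharacter ℂ q → Prop) : ℕ :=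
  ∑ q ∈ (Finset.Icc 2 Q).filter (fun q => Nat.Coprime q N),
    {ξ : DirichletCharacter ℂ q | ξ.IsPrimitive ∧ S q ξ}.ncard

/-- the number of the primitive Dirichlet characters `ξ` modulo `q` with the property `S ξ` -/
noncomputable def countOne (q : ℕ) (S : DirichletCharacter ℂ q → Prop) : ℕ :=
  {ξ : DirichletCharacter ℂ q | ξ.IsPrimitive ∧ S ξ}.ncard

/-- the exponent: it is less than `2` for `m ≤ 4`, `δ > 0`, and for `m ≥ 4`, `δ > 1/2 - 2/m` -/
noncomputable def expo (m : ℕ) (δ : ℝ) : ℝ :=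
  if m ≤ 3 then 2 * (1 - 2 * δ) * (3 + (m + 1) * δ) / (3 - δ)
  else 2 * (1 - 2 * δ) * (5 + 2 * m * δ) / (5 - 2 * δ)

/-! ### The hypothesis on the group -/

/-- A class function `θ` on `G` is positive if the multiplicity of every linear character `ψ` of every
subgroup `H` of `G` in the restriction of `θ` to `H` is a natural number. -/
structure Positive {G : Type} [Group G] (θ : G → ℂ) : Prop where
  conj : ∀ g h : G, θ (h * g * h⁻¹) = θ g
  mult : ∀ (H : Subgroup G) (ψ : H →* ℂˣ), ∃ k : ℕ,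
    ∑ᶠ h : H, θ h * (((ψ h)⁻¹ : ℂˣ) : ℂ) = (k : ℂ) * (Nat.card H : ℂ)

/-- A positive class function on `G` is zero if the multiplicities of the linear characters of the
subgroups of index at most `n` are zero. -/
def Detects (G : Type) [Group G] (n : ℕ) : Prop :=
  ∀ θ : G → ℂ, Positive θ → (∀ (H : Subgroup G) (ψ : H →* ℂˣ), H.index ≤ n →
    ∑ᶠ h : H, θ h * (((ψ h)⁻¹ : ℂˣ) : ℂ) = 0) → ∀ g, θ g = 0

/-! ### The theorem -/

/-- The estimates for the numbers of the exceptional `ξ`. -/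
def FewExceptions {F L : Type} [Field F] [NumberField F] [Field L] [NumberField L] [Algebra F L]
    (m N : ℕ) (Λ : (q : ℕ) → DirichletCharacter ℂ q → ((L ≃ₐ[F] L) → ℂ) → ℂ → ℂ) : Prop :=
  (∃ C B : ℝ, ∀ (Q : ℕ) (δ T : ℝ), 1 ≤ Q → 0 ≤ δ → δ ≤ 1 / 2 → 0 ≤ T →
    (count N Q (fun q ξ => ¬ Regular (Λ q ξ) (far δ T)) : ℝ) ≤
      C * (1 + T) ^ (2 * m + 1) * (1 + Real.log Q) ^ B * (Q : ℝ) ^ (expo m δ)) ∧
  (∀ δ : ℝ, 0 < δ → 1 / 2 - 2 / (m : ℝ) < δ → ∃ C κ : ℝ, 0 < κ ∧
    ∀ (Q : ℕ) (T : ℝ), 1 ≤ Q → 0 ≤ T → (count N Q (fun q ξ => ¬ Regular (Λ q ξ) (far δ T)) : ℝ) ≤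
      C * (1 + T) ^ (2 * m + 1) * (Q : ℝ) ^ (2 - κ)) ∧
  (m ≤ 4 → ∀ k : ℝ, ∃ K : ℝ, ∀ Q : ℕ, 1 ≤ Q →
    (count N Q (fun q ξ => ¬ Regular (Λ q ξ) (off (if m ≤ 3 then 1 else 2) K Q)) : ℝ) ≤
      K * (Q : ℝ) ^ 2 / (1 + Real.log Q) ^ k) ∧
  (∀ δ : ℝ, 0 < δ → 1 / 2 - 1 / (m : ℝ) < δ → ∃ C κ : ℝ, 0 < κ ∧
    ∀ (q : ℕ) (T : ℝ), 2 ≤ q → Nat.Coprime q N → 0 ≤ T →
      (countOne q (fun ξ => ¬ Regular (Λ q ξ) (far δ T)) : ℝ) ≤
        C * (1 + T) ^ (2 * m + 1) * (q : ℝ) ^ (1 - κ))

theorem heilbronn_iff {G : Type} [Group G] {θ : G → ℂ} :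
    Positive θ ↔ Pool.Agent.H302R2.IsHeilbronn θ :=
  ⟨fun h => ⟨h.conj, h.mult⟩, fun h => ⟨h.conj, h.mult⟩⟩

theorem detects_iff {G : Type} [Group G] {n : ℕ} : Detects G n ↔ Pool.Agent.H511.Ex.Detects G n :=
  ⟨fun h θ hθ => h θ (heilbronn_iff.2 hθ), fun h θ hθ => h θ (heilbronn_iff.1 hθ)⟩

theorem twistL_eq {F L : Type} [Field F] [NumberField F] [Field L] [NumberField L] [Algebra F L]
    (χ : (L ≃ₐ[F] L) → ℂ) {q : ℕ} (ξ : DirichletCharacter ℂ q) (s : ℂ) :
    twistL χ ξ s = Pool.Agent.H511.Ex.twL L (Pool.Agent.H511.Ex.dirW F ξ) χ s := by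
  classical
  unfold twistL Pool.Agent.H511.Ex.twL
  congr 1
  refine tsum_congr fun x => ?_
  unfold Pool.Agent.H511.Ex.twTerm artTerm Pool.Agent.H511.Ex.dirW
  split_ifs with h
  · ring
  · rw [zero_mul]

/-- **Theorem.** Let `L/F` be a Galois extension of number fields with group `G`, let `n` be such that
`Detects G n` and `m = n [F : ℚ]`. There is an `N ≠ 0` such that for all primitive Dirichlet characters
`ξ` of conductor `q ≥ 2` prime to `N` and all irreducible characters `χ` of `G` the twisted Artin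
L-functions `L(s, χ ⊗ ξ)` have meromorphic continuations `Λ q ξ χ`, and for few `ξ` only they are not all
holomorphic without zeros away from the critical line: the number of the exceptions of conductor
`q ≤ Q` (the number of all `ξ` is of the order `Q ^ 2`) is

* at most `C (1 + T) ^ (2 m + 1) (1 + log Q) ^ B Q ^ (expo m δ)` for the region `|Im s| ≤ T`,
  `|Re s - 1/2| ≥ δ`, `Re s > 0`, uniformly for `Q ≥ 1`, `0 ≤ δ ≤ 1/2`, `T ≥ 0`,
* at most `C (1 + T) ^ (2 m + 1) Q ^ (2 - κ)` with a `κ > 0` for the same region, if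
  `δ > max (1/2 - 2/m) 0`,
* for `m ≤ 4` and every `k`, at most `K Q ^ 2 / (1 + log Q) ^ k` for the region
  `|Re s - 1/2| ^ a log Q > K (log (1 + log Q) + log (2 + |Im s|))`, `Re s > 0`, with `a = 1` for
  `m ≤ 3`, `a = 2` for `m = 4`,

and the number of the exceptions modulo one `q` prime to `N` is at most
`C (1 + T) ^ (2 m + 1) q ^ (1 - κ)` for `δ > max (1/2 - 1/m) 0`. The hypothesis `Detects G n` holds if `G`
has an abelian subgroup of index `n`, and if `n = 6` and `G` is isomorphic to `A₅`. -/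
theorem result :
    (∀ (F L : Type) [Field F] [NumberField F] [Field L] [NumberField L] [Algebra F L]
      [IsGalois F L] (n : ℕ), Detects (L ≃ₐ[F] L) n →
      ∃ (N : ℕ) (Λ : (q : ℕ) → DirichletCharacter ℂ q → ((L ≃ₐ[F] L) → ℂ) → ℂ → ℂ), N ≠ 0 ∧
        (∀ (q : ℕ) (ξ : DirichletCharacter ℂ q), 2 ≤ q → Nat.Coprime q N → ξ.IsPrimitive →
          ∀ χ ∈ Irr (L ≃ₐ[F] L), IsContinuation χ ξ (Λ q ξ χ)) ∧
        FewExceptions (n * Module.finrank ℚ F) N Λ) ∧
    (∀ (G : Type) [Group G] [Finite G] (A : Subgroup G), (∀ a ∈ A, ∀ b ∈ A, a * b = b * a) →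
      Detects G A.index) ∧
    (∀ (G : Type) [Group G] [Finite G], Nonempty (G ≃* alternatingGroup (Fin 5)) →
      Detects G 6) := by
  refine ⟨?_, ?_, ?_⟩
  · intro F L _ _ _ _ _ _ n hn
    obtain ⟨N, ι, J, d, Ni, f, hN, hF, h⟩ := Pool.Agent.H511.Ex.tw_fams (detects_iff.1 hn)
    refine ⟨N, fun q ξ χ => Pool.Agent.H511.Ex.TL L (Pool.Agent.H511.Ex.dirW F ξ) χ, hN, ?_, ?_⟩
    · intro q ξ hq hqN hξ χ hχ
      obtain ⟨h1, h2, -⟩ := h q ξ hq hqN hξ χ hχ
      exact ⟨h1, fun s hs => (h2 s hs).trans (twistL_eq χ ξ s).symm⟩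
    -- an exception is a zero of one of the families
    have key : ∀ (q : ℕ) (ξ : DirichletCharacter ℂ q), 2 ≤ q → Nat.Coprime q N →
        ξ.IsPrimitive → ∀ U : Set ℂ, ¬ Regular (fun χ => Pool.Agent.H511.Ex.TL L
          (Pool.Agent.H511.Ex.dirW F ξ) χ) U → ∃ i ∈ J, ∃ s ∈ U, 0 < s.re ∧ f i q ξ s = 0 := by
      intro q ξ hq hqN hξ U hU
      by_contra hcon
      push Not at hcon
      exact hU fun χ hχ s hs h0 => (h q ξ hq hqN hξ χ hχ).2.2 s h0 fun i hi => hcon i hi s hs h0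
    refine ⟨?_, ?_, ?_, ?_⟩
    · obtain ⟨C, B, h1⟩ := hF.dens
      refine ⟨C, B, fun Q δ T hQ h0 h2 hT => h1 Q δ T hQ h0 h2 hT _ fun q ξ hq hqN hξ hS => ?_⟩
      obtain ⟨i, hi, s, ⟨hs1, hs2⟩, hs3, hs4⟩ := key q ξ hq hqN hξ _ hS
      exact ⟨i, hi, s, hs3, hs1, hs2, hs4⟩
    · intro δ h0 h2
      obtain ⟨C, κ, hκ, h1⟩ := hF.any h0 h2
      refine ⟨C, κ, hκ, fun Q T hQ hT => h1 Q T hQ hT _ fun q ξ hq hqN hξ hS => ?_⟩
      obtain ⟨i, hi, s, ⟨hs1, hs2⟩, hs3, hs4⟩ := key q ξ hq hqN hξ _ hS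
      exact ⟨i, hi, s, hs3, hs1, hs2, hs4⟩
    · intro hm k
      obtain ⟨K, h1⟩ := hF.near hm k
      refine ⟨K, fun Q hQ => h1 Q hQ _ fun q ξ hq hqN hξ hS => ?_⟩
      obtain ⟨i, hi, s, hs1, hs3, hs4⟩ := key q ξ hq hqN hξ _ hS
      exact ⟨i, hi, s, hs3, hs4, hs1⟩
    · intro δ h0 h2
      obtain ⟨C, κ, hκ, h1⟩ := hF.anyOne h0 h2
      refine ⟨C, κ, hκ, fun q T hq hqN hT => h1 q T hq hqN hT _ fun ξ hξ hS => ?_⟩
      obtain ⟨i, hi, s, ⟨hs1, hs2⟩, hs3, hs4⟩ := key q ξ hq hqN hξ _ hS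
      exact ⟨i, hi, s, hs3, hs1, hs2, hs4⟩
  · intro G _ _ A hA
    exact detects_iff.2 (Pool.Agent.H511.Ex.detects_comm A hA le_rfl)
  · rintro G _ _ ⟨ε⟩
    exact detects_iff.2 (Pool.Agent.H511.Ex.detects_A5.congr ε)

end Pool.Agent.Results.MP_d2121a_nt.AlmostAllTwists
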