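import Mathlib
import Pool.Agent.H701.CP.Fin

/-!
# Artin's holomorphy conjecture at the central point `s = 1/2`, for all Galois groups

`M/K` is a Galois extension of number fields with group `G = M ≃ₐ[K] M`, an arbitrary finite group;
`Pool.Agent.H541R3.ART.Irr G` is the set of irreducible complex characters of `G`.

`Pool.Agent.Q92.AR.artinL M χ` is the Artin L-function `L(s, χ)` of a class function `χ` of the
Galois group, for `Re s > 1`: `exp ∑ χ(Frob_v ^ n) / (n q_v ^ (n s))` over `n ≥ 1` and the primes `v`
of `K` which are unramified in `M`. The Euler factors of the finitely many ramified primes, which are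
left out, have no zeros and poles for `Re s > 0`, and neither have the Gamma factors.
`Pool.Agent.Q92.AR.cont f` is the meromorphic continuation to `ℂ` of a function `f` given for
`Re s > 1`; `NumberField.dedekindZeta M` is the Dedekind zeta function of `M`. The continuations exist
by Artin's reciprocity law, Hecke's theorem and Brauer's induction theorem, which are proved in the
library `Pool.Agent.Q92.AR`.

From `Pool/Agent/H701/CP`:

* `oddGen G` is the subgroup `O²(G)` generated by the elements of odd order;
* `zord K M H` is the order at `1/2` of the Dedekind zeta function of the field fixed by `H`;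
* `QuatZero K M`: there is a surjection `f` of a subgroup `H` of `G` onto the quaternion group `Q₈`
  such that the zeta functions of the fields fixed by `ker f` and by `f⁻¹ {1, -1}` have different
  orders at `1/2`. In other words: for some Galois extension `F'/F` of intermediate fields of `M/K`
  with group `Q₈`, the L-function of the irreducible character of degree `2` vanishes at `1/2`;
* `TwistZero K M` is the same with `Q₈` replaced by the groups `X` generated by a normal extraspecial
  2-group `E` with centre `{1, z}` and an element `t` of odd prime power order which acts irreducibly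
  on `E / {1, z}` (structure `Twisted`; the smallest example is `X = SL₂(𝔽₃)`), and with `{1, z}`
  instead of `{1, -1}`.
-/

set_option autoImplicit false

open Pool.Agent.H541R3.ART Pool.Agent.Q92.AR Pool.Agent.H701.CP

/-- Let `M/K` be a Galois extension of number fields with an arbitrary group `G`, let the Dedekind
zeta function of `M` have order `r` at `1/2`, and let `r < 2p` for all odd primes `p` dividing the
order of `G` (which is always true for `r ≤ 5`, and for `r ≤ 9` if `3` does not divide the order).

(1) A zero of twisted type is a zero of quaternion type.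

(2) If there is no zero of twisted type (in particular if there is none of quaternion type; in
particular if `G` has no section `Q₈`, or no section `SL₂(𝔽₃)` and no larger `X`), then there is a
normal subgroup `N` of `G`, contained in `O²(G)`, such that `O²(G) / N` is abelian of odd order (`N`
contains the commutators and the elements of 2-power order of `O²(G)`), and such that for all
irreducible characters `χ` of `G`: `L(s, χ)` is holomorphic at `1/2`, and `L(1/2, χ) ≠ 0` unless `χ`
is trivial on `N` and its degree is a power of two `≤ r`. -/
theorem Pool.Agent.Results.MP_d2121a_nt.CentralPoint.result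
    (K M : Type) [Field K] [NumberField K] [Field M] [NumberField M] [Algebra K M] [IsGalois K M]
    (r : ℕ)
    (hr : meromorphicOrderAt (cont (NumberField.dedekindZeta M)) (1 / 2) = (r : WithTop ℤ))
    (hp : ∀ p : ℕ, p.Prime → p ≠ 2 → p ∣ Nat.card (M ≃ₐ[K] M) → r < 2 * p) :
    (TwistZero K M → QuatZero K M) ∧
    (¬ TwistZero K M →
      ∃ N : Subgroup (M ≃ₐ[K] M), N.Normal ∧ N ≤ oddGen (M ≃ₐ[K] M) ∧
        (∀ x ∈ oddGen (M ≃ₐ[K] M), ∀ y ∈ oddGen (M ≃ₐ[K] M), x * y * x⁻¹ * y⁻¹ ∈ N) ∧
        (∀ x ∈ oddGen (M ≃ₐ[K] M), ∀ k : ℕ, x ^ 2 ^ k = 1 → x ∈ N) ∧
        ∀ χ ∈ Irr (M ≃ₐ[K] M), Continues (cont (artinL M χ)) (artinL M χ) ∧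
          0 ≤ meromorphicOrderAt (cont (artinL M χ)) (1 / 2) ∧
          (meromorphicOrderAt (cont (artinL M χ)) (1 / 2) ≠ 0 →
            (∀ x ∈ N, χ x = χ 1) ∧ ∃ d : ℕ, χ 1 = ((2 ^ d : ℕ) : ℂ) ∧ 2 ^ d ≤ r)) :=
  ⟨quat_of_twist K M, fun hT => central_point hr hp hT⟩
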