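import Mathlib
import Pool.Agent.H511.Sx.Main
import Pool.Agent.H511.Sx.Deg

/-!
# Every finite group is the group of explicit unramified extensions which satisfy Artin's conjecture

Let `k` be a number field, `n ≥ 1` and `M > [k : ℚ]` a multiple of a certain `M₀`, and let `L` be the
field of the roots of `(X ^ n - 1) (X ^ M - X - 1)` over `k`. The extensions `L/K` of the theorem are
those for which `K` contains the `n`-th roots of unity, the degree of `L/K` is at most `N`, and
`L = K(α)` for every root `α` of `X ^ M - X - 1`. All of them are unramified everywhere and satisfy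
Artin's conjecture, and every group of order at most `N` is the group of some of them. The primes of
`K` above a prime number `q` split completely in `L` if `q ^ (M!) - 1` divides `n`.

For number fields `K ⊆ L`, `L/K` Galois, `L ≃ₐ[K] L` is the Galois group and
`Pool.Agent.H541R3.ART.Irr G` the set of the irreducible complex characters of the group `G`.
`Pool.Agent.Q92.AR.Unramified L v` says that the prime `v` of `K` is unramified in `L`.

`Pool.Agent.Q92.AR.artinL L φ` is, for `Re s > 1`, the Artin L-function `L(s, φ, L/K)` of a class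
function `φ` of the Galois group: `exp ∑ φ(Frob_v ^ n) / (n q_v ^ (n s))` over `n ≥ 1` and the primes `v`
of `K` which are unramified in `L`. If all primes of `K` are unramified in `L`, no Euler factor is left
out. For a subgroup `H` of the group of `L/k` and a linear character `λ` of `H`,
`Pool.Agent.Q92.RT.induced H λ` is the induced character; by Artin's reciprocity law its L-function is
the L-function of a ray class character of the fixed field of `H` (without the Euler factors at the
primes which ramify in `L/k`).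

Nothing is assumed: Artin reciprocity, Hecke's theorem and Brauer's theorem are proved in the library
`Pool.Agent.Q92.AR`.
-/

set_option autoImplicit false

open NumberField IsDedekindDomain Pool.Agent.H541R3.ART Pool.Agent.Q92.AR Polynomial
open Pool.Agent.Q92.RT (induced)

namespace Pool.Agent.Results.MP_d2121a_nt.EveryGroupUnramified

/-- `f = E g` for `Re s > 1` with a function `E` which is meromorphic on the plane and holomorphic
without zeros for `Re s > 0`. -/
def UpToUnits (f g : ℂ → ℂ) : Prop :=
  ∃ E : ℂ → ℂ, MeromorphicOn E Set.univ ∧ (∀ s : ℂ, 1 < s.re → f s = E s * g s) ∧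
    ∀ s : ℂ, 0 < s.re → AnalyticAt ℂ E s ∧ E s ≠ 0

/-- The function `Λ` continues the L-function `L(s, χ, L/K)` meromorphically to the plane, and it is
holomorphic at all `s` with `Re s > 0`, `s ≠ 1`, and at `s = 1` if `χ` is not trivial. -/
def Holomorphic {K L : Type} [Field K] [NumberField K] [Field L] [NumberField L] [Algebra K L]
    (χ : (L ≃ₐ[K] L) → ℂ) (Λ : ℂ → ℂ) : Prop :=
  MeromorphicOn Λ Set.univ ∧ (∀ s : ℂ, 1 < s.re → Λ s = artinL L χ s) ∧
    ∀ s : ℂ, 0 < s.re → (s ≠ 1 ∨ χ ≠ fun _ => 1) → AnalyticAt ℂ Λ s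

/-- A power `L(s, χ, L/K) ^ a`, `a > 0`, is up to a factor without zeros and poles for `Re s > 0` a
product of L-functions of linear characters `lam i` of subgroups of the group of `L/k`; the `lam i` are
nontrivial if `χ` is nontrivial. -/
def HeckeRoot (k : Type) {K L : Type} [Field k] [NumberField k] [Field K] [NumberField K] [Field L]
    [NumberField L] [Algebra k L] [Algebra K L] (χ : (L ≃ₐ[K] L) → ℂ) : Prop :=
  ∃ (a l : ℕ) (H : Fin l → Subgroup (L ≃ₐ[k] L)) (lam : ∀ i, H i →* ℂˣ), 0 < a ∧
    UpToUnits (fun s => artinL L χ s ^ a) (fun s => ∏ i, artinL L (induced (H i) (lam i)) s) ∧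
    (χ ≠ (fun _ => 1) → ∀ i, lam i ≠ 1)

/-- The multiplicities of the zeros are nearly proportional to the degrees: for nontrivial `χ` and
arbitrary `χ'`, at every `s ≠ 1` with `Re s > 0` the order of `Λ χ` divided by `χ(1)` is at most `1 + ε`
times the order of `Λ χ'` divided by `χ'(1)`. -/
def Proportional {G : Type} [Group G] (ε : ℝ) (Λ : (G → ℂ) → ℂ → ℂ) : Prop :=
  ∀ χ ∈ Irr G, χ ≠ (fun _ => 1) → ∀ χ' ∈ Irr G, ∀ s : ℂ, 0 < s.re → s ≠ 1 →
    (analyticOrderNatAt (Λ χ) s : ℝ) * (χ' 1).re ≤
      (1 + ε) * (analyticOrderNatAt (Λ χ') s * (χ 1).re)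

/-- `L/K` is unramified at all places, all its Artin L-functions are holomorphic, have a power which is
a product of Hecke L-functions of fields between `k` and `L`, and have nearly proportional zeros. -/
def Good (k : Type) {L : Type} [Field k] [NumberField k] [Field L] [NumberField L] [Algebra k L]
    (K : IntermediateField k L) (ε : ℝ) : Prop :=
  (∀ v : HeightOneSpectrum (𝓞 K), Unramified L v) ∧ IsUnramifiedAtInfinitePlaces K L ∧
    ∃ Λ : ((L ≃ₐ[K] L) → ℂ) → ℂ → ℂ,
      (∀ χ ∈ Irr (L ≃ₐ[K] L), Holomorphic χ (Λ χ) ∧ HeckeRoot k χ) ∧ Proportional ε Λ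

/-- `K` contains the `n`-th roots of unity of `L`, and `L = K(α)` for every root `α` of
`X ^ M - X - 1` in `L`. -/
def Free {k L : Type} [Field k] [Field L] [Algebra k L] (K : IntermediateField k L) (n M : ℕ) : Prop :=
  (∀ ζ : L, ζ ^ n = 1 → ζ ∈ K) ∧ ∀ α : L, α ^ M = α + 1 → IntermediateField.adjoin K {α} = ⊤

/-- The residue degree over `K` of every prime of `L` above the prime number `q` is one. If `L/K` is
unramified, the primes of `K` above `q` split completely in `L`. -/
def SplitAbove {k L : Type} [Field k] [NumberField k] [Field L] [NumberField L] [Algebra k L]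
    (K : IntermediateField k L) (q : ℕ) : Prop :=
  ∀ w : HeightOneSpectrum (𝓞 L), (q : 𝓞 L) ∈ w.asIdeal →
    Ideal.absNorm w.asIdeal = Ideal.absNorm (w.under (𝓞 K)).asIdeal

/-- For all `N` and `ε > 0` there is an `M₀ > 0` such that for all multiples `M > 0` of `M₀`, all number
fields `k` of degree less than `M` and all `n > 0` the splitting field `L` of
`(X ^ n - 1) (X ^ M - X - 1)` over `k` has the following properties.

* `L/k` is Galois, and `M! / 2 ≤ [L : k] ≤ n M!`.
* Let `K` be a field between `k` and `L` which contains the `n`-th roots of unity, with `[L : K] ≤ N` and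
  `L = K(α)` for every root `α` of `X ^ M - X - 1`. Then
  - `L/K` is unramified at all finite and at all infinite places;
  - for every irreducible character `χ` of the group of `L/K`, the Artin L-function `L(s, χ, L/K)` has a
    meromorphic continuation `Λ χ` to the plane which is holomorphic at all points `s` with `Re s > 0`,
    `s ≠ 1`, and also at `s = 1` if `χ` is not trivial; so (functional equation) Artin's holomorphy
    conjecture holds for `L/K`;
  - there is an `a > 0` such that `L(s, χ, L/K) ^ a` is, up to a factor which is holomorphic without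
    zeros for `Re s > 0`, a product of L-functions of linear characters `lam i` of subgroups of the
    group of `L/k`, that is, of Hecke L-functions; the `lam i` are nontrivial if `χ` is nontrivial;
  - the multiplicities of the zeros are nearly proportional to the degrees: if `χ` is nontrivial and
    `χ'` arbitrary, the order of `L(s, χ)` divided by `χ(1)` is at every `s ≠ 1` with `Re s > 0` at most
    `1 + ε` times the order of `L(s, χ')` divided by `χ'(1)`;
  - if `q` is a prime number and `q ^ (M!) - 1` divides `n`, the primes of `K` above `q` split completely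
    in `L`.
* Every finite group of order at most `N` is the Galois group of `L/K` for such a field `K`. -/
theorem result (N : ℕ) (ε : ℝ) (hε : 0 < ε) :
    ∃ M₀ : ℕ, 0 < M₀ ∧ ∀ M : ℕ, 0 < M → M₀ ∣ M →
      ∀ (k : Type) [Field k] [NumberField k], Module.finrank ℚ k < M → ∀ n : ℕ, 0 < n →
      ∀ (L : Type) [Field L] [NumberField L] [Algebra k L],
        IsSplittingField k L ((X ^ n - 1) * (X ^ M - X - 1) : k[X]) →
        IsGalois k L ∧
        (M.factorial ≤ 2 * Module.finrank k L ∧ Module.finrank k L ≤ n * M.factorial) ∧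
        (∀ K : IntermediateField k L, Free K n M → Module.finrank K L ≤ N →
          Good k K ε ∧ ∀ q : ℕ, q.Prime → (q ^ M.factorial - 1) ∣ n → SplitAbove K q) ∧
        ∀ (G : Type) [Group G] [Finite G], Nat.card G ≤ N →
          ∃ K : IntermediateField k L, Free K n M ∧ Nonempty ((L ≃ₐ[K] L) ≃* G) := by
  obtain ⟨m₀, hm₀, h⟩ := Pool.Agent.H511.Sx.main N ε hε
  refine ⟨2 * (3 * m₀), by omega, ?_⟩
  rintro M hM ⟨c, rfl⟩ k _ _ hk n hn L _ _ _ hL
  have hM' : 2 * (3 * m₀) * c = 2 * (3 * m₀ * c) := by ring
  have hc : 0 < c := Nat.pos_of_ne_zero fun h0 => by rw [h0, mul_zero] at hM; exact lt_irrefl 0 hM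
  have hmpos : 0 < 3 * m₀ * c := Nat.mul_pos (by omega) hc
  have hM3 : 3 ≤ 3 * m₀ * c := by
    rw [mul_assoc]
    exact Nat.le_mul_of_pos_right 3 (Nat.mul_pos hm₀ hc)
  rw [hM'] at hk hL ⊢
  obtain ⟨hgal, hK, hG⟩ := h (3 * m₀ * c) hmpos ⟨3 * c, by ring⟩ k hk n hn L hL
  have hL' : Pool.Agent.H511.Sx.IsField k L n (2 * (3 * m₀ * c)) := hL
  have hm2 : 2 ≤ 2 * (3 * m₀ * c) := by omega
  obtain ⟨Φ, r, -, hroot, hgr, halt, -, -⟩ :=
    Pool.Agent.H511.Sx.act k (2 * (3 * m₀ * c)) (by omega) hk L (hL'.splits hn hm2)
  refine ⟨hgal, ⟨Pool.Agent.H511.Sx.le_card hm2 Φ halt, ?_⟩, ?_, ?_⟩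
  · refine Pool.Agent.H511.Sx.card_le hn Φ ?_
    intro g hg h1
    refine hL'.eq_one hn hm2 hg fun x hx => ?_
    obtain ⟨i, rfl⟩ := (hroot x).1 hx
    rw [hgr, h1]
    rfl
  · intro K hF hN
    obtain ⟨h1, h2, h3, h4, h5⟩ := hK K hF hN
    refine ⟨⟨h1, h2, Pool.Agent.H511.Ex.Lam, fun χ hχ => ?_, h5⟩, h3⟩
    obtain ⟨h6, h7, h8, h9⟩ := h4 χ hχ
    exact ⟨⟨h6, h7, h8⟩, h9⟩
  · intro G _ _ hGN
    exact hG G hGN

end Pool.Agent.Results.MP_d2121a_nt.EveryGroupUnramified
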