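import Pool.Agent.H513.X.Main

/-!
# Artin's holomorphy conjecture and the primes in one Frobenius class

Let `M/K` be a Galois extension of number fields with group `G`. `artinL M χ` is the Artin L-function
`L(s, χ, M/K)` of an irreducible character `χ` of `G` (for `Re s > 1`, without the Euler factors at the
ramified primes, which have neither zeros nor poles for `Re s > 0`) and `cont` its meromorphic
continuation. Let `1/2 ≤ θ`.

A union `S` of conjugacy classes of `G` is called regular to the right of `θ` if the Dirichlet series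
`∑ log N(v) N(v)⁻ˢ` over the unramified primes `v` of `K` with Frobenius class in `S` has a meromorphic
continuation to `Re s > θ`, analytic except possibly at `s = 1` (`Continuable θ S`). Two unions of
classes are called balanced to the right of `θ` if this holds for the difference of their Dirichlet
series (`Balanced θ S T`). For `θ < 1` it is enough that the primes in `S` are counted with an error
`O(x ^ (θ + ε))`, or that the difference of the two counts is `O(x ^ (θ + ε))`, for all `ε > 0`
(part 5).

Regularity and balance are much weaker than the Riemann hypothesis for the L-functions of `M/K`: one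
linear combination of the `L'/L(s, χ)` has no poles. We show that already one class can decide Artin's
conjecture to the right of `θ`:

1. The class of `g` is regular if and only if `∑_χ χ(g) ord_s L(s, χ) = 0` for all `s ≠ 1` with
   `Re s > θ`; the classes of `g` and `g ^ k`, `k` prime to the order of `g`, are balanced if and only
   if `∑_χ χ(g) ord_s L(s, χ) = ∑_χ χ(g ^ k) ord_s L(s, χ)` for all these `s`.
2. (Classes outside a subgroup.) Let `L` be a field between `K` and `M` such that all elements outside
   `Gal(M/L)` have regular classes. If Artin's conjecture holds for `M/L` to the right of `θ`, for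
   instance if all irreducible characters of `Gal(M/L)` are monomial, then it holds for `M/K`.
3. (The smallest simple group.) Let `G` be isomorphic to the alternating group `A₅`. Its characters of
   degrees 3 and 4 are not monomial, and Artin's conjecture is not known for them.
   * If the elements of order 5 together are regular (they are the Frobenius elements of the primes
     that remain prime in the quintic fields `F` between `K` and `M`) then `ζ_F / ζ_K²` has no poles
     for `Re s > θ`, `s ≠ 1`; in particular `ζ_F / ζ_K` has none (Dedekind's conjecture).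
   * If the two classes of elements of order 5 are balanced, then no `L(s, χ)` with `χ(1) ≠ 4` has a
     pole for `Re s > θ`, `s ≠ 1`; this contains both characters of degree 3.
   * If one of the two classes is regular, then Artin's conjecture holds for `M/K` to the right of `θ`.
4. If the class of `g` is regular, then the order of the Dedekind zeta function of `M` at every `s ≠ 1`
   with `Re s > θ` is a sum of prime factors of the order of `g` (with repetitions). If it is zero, or
   not a positive number of this form (for instance smaller than all prime factors of the order of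
   `g`), then no Artin L-function of `M/F`, `F` any field between `K` and `M`, has a zero or a pole
   at `s`.

In other words, a pole of an Artin L-function at a point `β + iγ`, `β > 1/2`, is visible in the
distribution of the primes in every single class of elements of order 5 of an `A₅`-extension (the
error is not `O(x ^ (β - ε))`), and if the character has degree 3 even in the difference of the two
classes.

The proofs use the Heilbronn character `∑ ord_s L(s, χ) χ`, the theorems of Artin, Hecke and Brauer
(proved in the library), a bilinear identity for class functions on `A₅`, and a proof of the theorem of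
Lam and Leung on vanishing sums of roots of unity.
-/

set_option autoImplicit false
set_option linter.unusedSectionVars false

namespace Pool.Agent.Results.MP_d2121a_nt.OneFrobeniusClass

open Filter Asymptotics Pool.Agent.H513.AR Pool.Agent.H513.V Pool.Agent.H513.U Pool.Agent.H513.X
  Pool.Agent.Q92.AR Pool.Agent.H541R3.ART Pool.Agent.H302R2 NumberField

section
variable {K M : Type} [Field K] [NumberField K] [Field M] [NumberField M] [Algebra K M]

/-- The sums of prime factors of `m`: the submonoid of `ℕ` generated by the prime factors of `m`. -/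
def sums (m : ℕ) : AddSubmonoid ℕ := AddSubmonoid.closure {p | p.Prime ∧ p ∣ m}

/-- The conjugacy class of `g` -/
def conjClass (g : M ≃ₐ[K] M) : Set (M ≃ₐ[K] M) := {x | IsConj g x}

/-- The order at `s` of the meromorphic continuation of the Artin L-function of `χ`, an integer; the
L-functions are meromorphic and not identically zero. -/
noncomputable def ordL (χ : (M ≃ₐ[K] M) → ℂ) (s : ℂ) : ℤ :=
  (meromorphicOrderAt (cont (artinL M χ)) s).untop₀

/-- The Artin L-function of `χ` has no pole for `Re s > θ`, `s ≠ 1`. -/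
def NoPole (θ : ℝ) (χ : (M ≃ₐ[K] M) → ℂ) : Prop :=
  ∀ s : ℂ, θ < s.re → s ≠ 1 → 0 ≤ meromorphicOrderAt (cont (artinL M χ)) s

/-- `∑_{N(v) ≤ x, Frob_v ∈ S} log N(v) - ∑_{N(v) ≤ x, Frob_v ∈ T} log N(v) = O(x ^ (θ + ε))` for every
`ε > 0` -/
def EquallyDistributed (θ : ℝ) (S T : Set (M ≃ₐ[K] M)) : Prop :=
  ∀ ε : ℝ, 0 < ε → (fun x : ℝ => thetaSum S x - thetaSum T x) =O[atTop] fun x => x ^ (θ + ε)

variable [IsGalois K M]

theorem continuable_iff (g : M ≃ₐ[K] M) {θ : ℝ} (hθ : 1 / 2 ≤ θ) :
    Continuable θ (conjClass g) ↔ ∀ (s : ℂ) (h0 : 0 < s.re) (h1 : s ≠ 1), θ < s.re →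
      heil (K := K) M h0 h1 g = 0 := by
  have h2 : Continuable θ (conjClass g) ↔ ∀ (s : ℂ) (h0 : 0 < s.re) (h1 : s ≠ 1), θ < s.re →
      heil (K := K) M h0 h1 g⁻¹ = 0 := by
    rw [← continuable_iff_heil g hθ]
    unfold Continuable
    rw [← frobPrimes_cc]
    rfl
  rw [h2]
  refine forall_congr' fun s => forall_congr' fun h0 => forall_congr' fun h1 =>
    forall_congr' fun hs => ?_
  rw [heil_inv_star (heil_isHeilbronn (K := K) (M := M) h0 h1), map_eq_zero]

theorem heil_eq_sum {s : ℂ} (h0 : 0 < s.re) (h1 : s ≠ 1) (g : M ≃ₐ[K] M) :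
    heil (K := K) M h0 h1 g = ∑ᶠ χ ∈ Irr (M ≃ₐ[K] M), χ g * (ordL χ s : ℂ) := by
  classical
  set A := ArtinData.ofExtension (continued (K := K) (M := M) h0 h1) with hA
  have h2 : heil (K := K) M h0 h1 g = ∑ χ ∈ irrF (M ≃ₐ[K] M), (A.ord χ : ℂ) * χ g := rfl
  have h3 : (Irr (M ≃ₐ[K] M) : Set ((M ≃ₐ[K] M) → ℂ)) = ↑(irrF (M ≃ₐ[K] M)) := by
    ext χ
    rw [Finset.mem_coe, mem_irrF]
  rw [h2, finsum_mem_congr h3 fun χ _ => rfl, finsum_mem_coe_finset]
  refine Finset.sum_congr rfl fun χ hχ => ?_
  have h4 := coe_ord_eq h0 h1 (mem_irrF.1 hχ)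
  have h5 : ordL χ s = A.ord χ := by
    unfold ordL
    have h6 : meromorphicOrderAt (cont (artinL M χ)) s = ao M χ s := rfl
    rw [h6, ← h4]
    rfl
  rw [h5, mul_comm]

/-- for all points to the right of `θ`, from all `r > θ` -/
theorem of_all {θ : ℝ} (hθ1 : θ < 1) {P : ℂ → Prop}
    (h : ∀ r : ℝ, θ < r → r ≤ 1 → ∀ s : ℂ, r < s.re → P s) (s : ℂ) (hs : θ < s.re) : P s := by
  obtain ⟨r, hr, hr2⟩ := exists_between (lt_min hs hθ1)
  exact h r hr (hr2.le.trans (min_le_right _ _)) s (hr2.trans_le (min_le_left _ _))

/-- **Artin's holomorphy conjecture and the primes in one Frobenius class.** -/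
theorem result {θ : ℝ} (hθ : 1 / 2 ≤ θ) :
    -- 1. criteria
    ((∀ g : M ≃ₐ[K] M, Continuable θ (conjClass g) ↔ ∀ s : ℂ, θ < s.re → s ≠ 1 →
        ∑ᶠ χ ∈ Irr (M ≃ₐ[K] M), χ g * (ordL χ s : ℂ) = 0) ∧
      ∀ (g : M ≃ₐ[K] M) (k : ℕ), k.Coprime (orderOf g) →
        (Balanced θ (conjClass g) (conjClass (g ^ k)) ↔ ∀ s : ℂ, θ < s.re → s ≠ 1 →
          ∑ᶠ χ ∈ Irr (M ≃ₐ[K] M), χ g * (ordL χ s : ℂ) =
            ∑ᶠ χ ∈ Irr (M ≃ₐ[K] M), χ (g ^ k) * (ordL χ s : ℂ))) ∧
    -- 2. classes outside a subgroup
    (∀ L : IntermediateField K M, (∀ g ∉ L.fixingSubgroup, Continuable θ (conjClass g)) →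
      (∀ ψ ∈ Irr (M ≃ₐ[L] M), IsMonomialChar ψ ∨ NoPole θ ψ) →
        ∀ χ ∈ Irr (M ≃ₐ[K] M), NoPole θ χ) ∧
    -- 3. the alternating group of degree five
    (Nonempty ((M ≃ₐ[K] M) ≃* alternatingGroup (Fin 5)) →
      (Continuable θ {g : M ≃ₐ[K] M | orderOf g = 5} →
        ∀ F : IntermediateField K M, Module.finrank K F = 5 → ∀ s : ℂ, θ < s.re → s ≠ 1 →
          meromorphicOrderAt (cont (dedekindZeta K)) s + meromorphicOrderAt (cont (dedekindZeta K)) s
            ≤ meromorphicOrderAt (cont (dedekindZeta F)) s) ∧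
      (∀ g : M ≃ₐ[K] M, orderOf g = 5 → Balanced θ (conjClass g) (conjClass (g ^ 2)) →
        ∀ χ ∈ Irr (M ≃ₐ[K] M), χ 1 ≠ 4 → NoPole θ χ) ∧
      (∀ g : M ≃ₐ[K] M, orderOf g = 5 → Continuable θ (conjClass g) →
        ∀ χ ∈ Irr (M ≃ₐ[K] M), NoPole θ χ)) ∧
    -- 4. the orders of the zeta function of the top field
    (∀ g : M ≃ₐ[K] M, Continuable θ (conjClass g) → ∀ s : ℂ, θ < s.re → s ≠ 1 →
      ∃ r ∈ sums (orderOf g),
        meromorphicOrderAt (cont (dedekindZeta M)) s = ((r : ℤ) : WithTop ℤ) ∧
        (r = 0 → ∀ (F : IntermediateField K M), ∀ χ ∈ Irr (M ≃ₐ[F] M),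
          meromorphicOrderAt (cont (artinL M χ)) s = 0)) ∧
    -- 5. from the counts to the series
    (θ < 1 → ∀ S T : Set (M ≃ₐ[K] M), (∀ g x, g ∈ S → x * g * x⁻¹ ∈ S) →
      (∀ g x, g ∈ T → x * g * x⁻¹ ∈ T) →
      (Equidistributed θ S → Continuable θ S) ∧ (EquallyDistributed θ S T → Balanced θ S T)) := by
  classical
  have : Fintype (M ≃ₐ[K] M) := Fintype.ofFinite _
  have hcrit := fun g : M ≃ₐ[K] M => continuable_iff (K := K) (M := M) g hθ
  refine ⟨⟨fun g => ?_, fun g k hk => ?_⟩, ?_, ?_, ?_, ?_⟩
  · rw [hcrit g]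
    constructor
    · intro h s hs h1
      have h0 : 0 < s.re := by linarith
      rw [← heil_eq_sum h0 h1 g]
      exact h s h0 h1 hs
    · intro h s h0 h1 hs
      rw [heil_eq_sum h0 h1 g]
      exact h s hs h1
  · have h2 := balanced_iff_heil (K := K) (M := M) g hk hθ
    constructor
    · intro h s hs h1
      have h0 : 0 < s.re := by linarith
      rw [← heil_eq_sum h0 h1, ← heil_eq_sum h0 h1]
      exact h2.1 h s h0 h1 hs
    · intro h
      refine h2.2 fun s h0 h1 hs => ?_
      rw [heil_eq_sum h0 h1, heil_eq_sum h0 h1]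
      exact h s hs h1
  · intro L hout hL χ hχ s hs h1
    have h0 : 0 < s.re := by linarith
    refine of_outside h0 h1 L (fun g hg => (hcrit g).1 (hout g hg) s h0 h1 hs) (fun ψ hψ => ?_) hχ
    rcases hL ψ hψ with h | h
    · exact Or.inl h
    · exact Or.inr (h s hs h1)
  · rintro ⟨e⟩
    refine ⟨fun h F hF s hs h1 => ?_, fun g hg h χ hχ h4 s hs h1 => ?_,
      fun g hg h χ hχ s hs h1 => ?_⟩
    · have h0 : 0 < s.re := by linarith
      have hS := orderOf_conj_mem (G := M ≃ₐ[K] M) 5
      rw [continuable_iffC hS, extends_iff_pair (fun a x => ind_conj hS a x) hθ] at h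
      exact a5_all h0 h1 e (h s h0 h1 hs) F hF
    · have h0 : 0 < s.re := by linarith
      have h2 := balanced_iff_heil (K := K) (M := M) g (k := 2) (by rw [hg]; decide) hθ
      exact a5_two h0 h1 e hg (h2.1 h s h0 h1 hs) hχ h4
    · have h0 : 0 < s.re := by linarith
      exact a5_one h0 h1 e hg ((hcrit g).1 h s h0 h1 hs) hχ
  · intro g h s hs h1
    have h0 : 0 < s.re := by linarith
    have hH := heil_isHeilbronn (K := K) (M := M) h0 h1
    obtain ⟨m, hm⟩ := exists_means hH
    have h5 := (hcrit g).1 h s h0 h1 hs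
    refine ⟨m ⊥, degree_mem hH hm h5, zo_top h0 h1 hm, fun hr F χ hχ => ?_⟩
    have h6 : zo M s = 0 := by
      rw [zo_top h0 h1 hm, hr]
      rfl
    exact ao_zero_of_zo (K := F) (M := M) h0 h1 h6 hχ
  · intro hθ1 S T hS hT
    constructor
    · intro h
      rw [continuable_iffC hS, extends_iff_pair (fun a x => ind_conj hS a x) hθ]
      intro s h0 h1 hs
      refine of_all hθ1 (P := fun s => ∀ (h0 : 0 < s.re) (h1 : s ≠ 1),
        ∑ g : M ≃ₐ[K] M, ind S g * heil (K := K) M h0 h1 g⁻¹ = 0) ?_ s hs h0 h1
      intro r hr hr1 s hs h0 h1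
      have h5 : Extends (ind S) r := extends_of_countC hS (by linarith) hr hr1 h
      exact (extends_iff_pair (fun a x => ind_conj hS a x) (by linarith)).1 h5 s h0 h1 hs
    · intro h
      have hc : ∀ a x : M ≃ₐ[K] M, (fun g => ind S g - ind T g) (x * a * x⁻¹) =
          (fun g => ind S g - ind T g) a := fun a x => by
        simp only [ind_conj hS, ind_conj hT]
      rw [balanced_iff hS hT, extends_iff_pair hc hθ]
      intro s h0 h1 hs
      refine of_all hθ1 (P := fun s => ∀ (h0 : 0 < s.re) (h1 : s ≠ 1),
        ∑ g : M ≃ₐ[K] M, (fun g => ind S g - ind T g) g * heil (K := K) M h0 h1 g⁻¹ = 0) ?_ s hs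
          h0 h1
      intro r hr hr1 s hs h0 h1
      have h5 : Balanced r S T := balanced_of_count hS hT (by linarith) hr hr1 h
      rw [balanced_iff hS hT] at h5
      exact (extends_iff_pair hc (by linarith)).1 h5 s h0 h1 hs

end

end Pool.Agent.Results.MP_d2121a_nt.OneFrobeniusClass
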